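import Pool.Agent.H32.UFB

open Set Filter

namespace Pool.Agent.Results.MP_254ca6_gt.Inclusions

open Pool.Agent.H32.UFA Pool.Agent.H32.UFB

theorem result : (∀ u v : Ultrafilter ℕ, CFLe u v → CLe u v) ∧
    ∃ u v : Ultrafilter ℕ, RFLe u v ∧ CLe u v ∧ ¬ CFLe u v := by
  refine ⟨fun u v h => h.c, ?_⟩
  have hu : NP (hyperfilter ℕ) := fun n hn =>
    notMem_hyperfilter_of_finite (finite_singleton n) (hn ▸ (mem_singleton n : n ∈ ({n} : Set ℕ)))
  refine ⟨hyperfilter ℕ, tens (hyperfilter ℕ) (hyperfilter ℕ), rf_tens _ _,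
    c_of_rk (rf_tens _ _).rk, fun h => tens_not_RK hu _ (h.rf hu).rk⟩

end Pool.Agent.Results.MP_254ca6_gt.Inclusions
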