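import Pool.Agent.H32.UFC

open Set Filter

namespace Pool.Agent.Results.MP_254ca6_gt.TreeLikeIff

open Pool.Agent.H32.UFA Pool.Agent.H32.UFB Pool.Agent.H32.UFC

theorem result : TreeLike CFLe ↔ ¬ ∃ u : Ultrafilter ℕ, Selective u := by
  constructor
  · rintro hT ⟨u, hu⟩
    have hnp : NP u := hu.1
    have h2 : CFLe (tens u u) u := fun X _ _ hX f _ _ =>
      uc_tens (uc_of_selective hu hX) (uc_of_selective hu hX) f
    have h3 : CFLe (tens u (tens u u)) u := fun X _ _ hX f _ _ =>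
      uc_tens (uc_of_selective hu hX)
        (uc_tens (uc_of_selective hu hX) (uc_of_selective hu hX)) f
    apply tens_not_RK hnp (tens u u)
    rcases hT u _ _ h2 h3 with h | h
    · exact (h.rf (tens_np hnp u)).rk
    · exact (iso_of_cf hnp ⟨_, tens_fst u u⟩ (tens_not_RK hnp u) (tens_np hnp _) h).rk
  · intro hno v u w hu hw
    by_cases hup : ∃ n : ℕ, u = pure n
    · obtain ⟨n, rfl⟩ := hup
      exact Or.inl (cf_pure n w)
    by_cases hwp : ∃ n : ℕ, w = pure n
    · obtain ⟨n, rfl⟩ := hwp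
      exact Or.inr (cf_pure n u)
    have hunp : NP u := fun n hn => hup ⟨n, hn⟩
    have hwnp : NP w := fun n hn => hwp ⟨n, hn⟩
    have hv : NP v := by
      rintro n rfl
      have := hu.mem (Y := {p | ∃ n : ℕ, p = pure n}) (fun n => ⟨n, rfl⟩) fun g hg _ _ => hg n
      exact hup this
    have hns : ∃ h : ℕ → ℕ, ∀ A ∈ v, ¬ (InjOn h A ∨ ∃ c, ∀ n ∈ A, h n = c) := by
      by_contra hc
      push Not at hc
      exact hno ⟨v, hv, hc⟩
    obtain ⟨h, hh⟩ := hns
    have h0 : NP (v.map h) := fun c hc =>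
      hh _ (map_eq_pure.1 hc) (Or.inr ⟨c, fun _ hn => hn⟩)
    have h1 : ¬ RK v (v.map h) := by
      rintro ⟨k, hk⟩
      rw [Ultrafilter.map_map] at hk
      refine hh _ (katetov hk) (Or.inl fun a ha b hb hab => ?_)
      have ha' : k (h a) = a := ha
      have hb' : k (h b) = b := hb
      rw [← ha', hab, hb']
    have h2 : CFLe v w := cf_of_iso hwnp (iso_of_cf h0 ⟨h, rfl⟩ h1 hwnp hw).symm
    exact Or.inl fun X _ _ hX => hu X (h2 X hX)

end Pool.Agent.Results.MP_254ca6_gt.TreeLikeIff
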